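import Pool.Agent.Helper75.CF.Iff
import Pool.Agent.Helper75.CF.Red

/-!
# Embeddings of rational homology 3-spheres in the 4-sphere and 2-colourings of hypergraphs

The algebraic data of a closed oriented 3-manifold `M` with finite first homology are the group
`G = H_1(M)`, the linking form and the triple cup product form on `H^1(M; ℤ/p) = Hom(G, ℤ/p)`. If `M`
embeds in the 4-sphere, then the data split (`Splits`): the kernels `K`, `L` of the maps from `G` to
the first homology of the two sides are complementary, the linking form vanishes on each of them
(Hantzsche, Kawauchi, Kojima), and the triple products of the classes that vanish on `K` are zero,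
since these classes extend over one side; the same holds for `L`.

Here `p` is an odd prime, `G = ⨁ (ℤ/p^(e i))²` with different exponents `e i ≥ 1` (`i ∈ P`), the
linking form is hyperbolic (`link`), and the triple cup product form is given by an array `c` on
`P × {false, true}` (`cup`). These are the data of the 0-surgery on a link with the unknotted
components `(i, false)`, `(i, true)`, where the two components at the same `i` have the linking
number `p^(e i)`, and every entry of `c` is realized by Borromean claspers on three components.

Theorem. (1) Assume that the support of `c` is an antichain: if the positions of a triple in the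
support are at most those of another one, with respect to the exponents, then they agree. Then the
data split if and only if there is a colouring `s : P → {false, true}` such that `c` vanishes on the
set of all `(i, s i)` and on the set of all `(i, !s i)`. For such a colouring the link above is
the union of two unlinks, so that the 0-surgery embeds smoothly in the 4-sphere.

(2) For every 3-uniform hypergraph with `n` vertices and `m` edges an explicit alternating array
with entries in `{0, 1, -1}`, whose support is an antichain, on `n + 6 m` positions with exponents at
most `48 (n + 1) (m + 1)`, has such a colouring, equivalently the data split, if and only if the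
hypergraph is 2-colourable.

So it is NP-hard to decide whether a closed 3-manifold, even a rational homology sphere, embeds
smoothly (or locally flatly) in the 4-sphere.

Idea of the proof. Let `G = K + L` be a splitting, `F` the sum of the two coordinate classes at `i`,
and `f = F ∘ pr_L`, which vanishes on `K`. The coefficients of `f` at positions with smaller exponent
are zero. There is an element `k` of `K` with `f(x)/p = p^(e i - 1) lk(k, x)` for all `x`, because
the linking form vanishes on `K` and on `L`. So `f(k) = 0`, and this is twice the product of the two
coefficients of `f` at `i`. So `f`, and in the same way `F - f`, is one of the coordinate classes at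
`i` plus terms at positions with larger exponents.
-/

set_option autoImplicit false

namespace Pool.Agent.Results.MP_cf17b5_gt.LinkingFormColourings

open Pool.Agent.Helper75.CF

/-- Data with hyperbolic linking form, different exponents and triple cup products whose support is
an antichain split if and only if there is a colouring; and 2-colourability of 3-uniform
hypergraphs is a special case. -/
theorem result (p : ℕ) [Fact p.Prime] (hp : p ≠ 2) :
    (∀ (P : Type) [Fintype P] [DecidableEq P] (e : P → ℕ), (∀ i, 0 < e i) →
      Function.Injective e → ∀ c : P × Bool → P × Bool → P × Bool → ZMod p,
      (∀ a b d a' b' d', c a b d ≠ 0 → c a' b' d' ≠ 0 →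
        e a.1 ≤ e a'.1 → e b.1 ≤ e b'.1 → e d.1 ≤ e d'.1 →
          a.1 = a'.1 ∧ b.1 = b'.1 ∧ d.1 = d'.1) →
      (Splits (link p e) (cup p e c) ↔ ∃ s : P → Bool, Colouring c s)) ∧
    (∀ (n m : ℕ) (E : Fin m → Fin 3 → Fin n),
      (Function.Injective (expo E) ∧ (∀ i, 0 < expo E i ∧ expo E i ≤ 48 * (n + 1) * (m + 1)) ∧
        Fintype.card (Pos n m) = n + 6 * m) ∧
      (IsAlt (arr E) ∧ (∀ x y z, arr E x y z = 0 ∨ arr E x y z = 1 ∨ arr E x y z = -1) ∧
        ∀ x y z, arr E x y z ≠ 0 → expo E x.1 + expo E y.1 + expo E z.1 = 12 * scale n m) ∧
      ((∃ s, Colouring (fun x y z => ((arr E x y z : ℤ) : ZMod p)) s) ↔ TwoColourable E) ∧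
      (Splits (link p (expo E)) (cup p (expo E) fun x y z => ((arr E x y z : ℤ) : ZMod p)) ↔
        TwoColourable E)) := by
  have hp1 : 1 < p := (Fact.out : p.Prime).one_lt
  refine ⟨fun P _ _ e he hinj c hc => splits_iff Fact.out hp e he hinj c hc, fun n m E => ?_⟩
  refine ⟨⟨expo_inj E, fun i => ⟨expo_pos E i, expo_le E i⟩, ?_⟩, ⟨arr_isAlt E, arr_values E, ?_⟩,
    colouring_iff hp1 E, ?_⟩
  · simp only [Fintype.card_sum, Fintype.card_prod, Fintype.card_fin]
    ring
  · intro x y z h
    refine isMono_sum E ?_
    by_contra h'
    exact h (by unfold arr; rw [if_neg h'])
  · rw [← colouring_iff hp1 E]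
    exact splits_iff Fact.out hp (expo E) (expo_pos E) (expo_inj E) _ (antichain hp1 E)

end Pool.Agent.Results.MP_cf17b5_gt.LinkingFormColourings
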