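import Pool.Agent.Helper89.MR.Univ
import Pool.Agent.Helper13.MR.Spl

/-!
# Splitting of integral alternating 3-forms is undecidable

`IsAlt`, `tri` and `Splits` are defined in `Pool/Agent/Helper41/MR/Stmt.lean`: an array `c` of
integers is alternating, `tri c x y z = ∑ c i j k x_i y_j z_k`, and `c` splits if `ℤ^n` is the direct
sum of two subgroups on each of which the trilinear form vanishes.
-/

namespace Pool.Agent.Results.MP_cf17b5_gt.SplittingUndecidable

open Pool.Agent.Helper41.MR

/-- There are `n` and two alternating 3-forms `C`, `D` on `ℤ^n` such that no algorithm decides for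
which `a` the form `C + a D` splits; the set of these `a` is many-one complete for the r.e. sets, and
so is the (r.e.) set of all splitting alternating forms on `ℤ^n`. -/
theorem result : ∃ (n : ℕ) (C D : Fin n → Fin n → Fin n → ℤ), IsAlt C ∧ IsAlt D ∧
    (∀ p : ℕ → Prop, REPred p → ∃ g : ℕ → ℕ, Computable g ∧ ∀ a : ℕ,
      p a ↔ Splits (fun i j k => C i j k + (g a : ℤ) * D i j k)) ∧
    (¬ ComputablePred fun a : ℕ => Splits (fun i j k => C i j k + (a : ℤ) * D i j k)) ∧
    (¬ ∃ f : (Fin n → Fin n → Fin n → ℤ) → Bool, Computable f ∧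
      ∀ c, IsAlt c → (f c = true ↔ Splits c)) ∧
    REPred (fun c : Fin n → Fin n → Fin n → ℤ => IsAlt c ∧ Splits c) := by
  obtain ⟨n, C, D, hC, hD, hg, hu⟩ := Helper89.MR.pencil_undecidable
  refine ⟨n, C, D, hC, hD, hg, hu, ?_, Helper13.MR.re_splits n⟩
  rintro ⟨f, hf, hfs⟩
  refine hu (ComputablePred.computable_iff.2
    ⟨fun a => f (fun i j k => C i j k + ((a : ℕ) : ℤ) * D i j k),
      hf.comp (Helper50.MR.Comp.computable_pencil C D), ?_⟩)
  funext a
  exact propext (hfs _ (Helper50.MR.Final.isAlt_pencil hC hD _)).symm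

end Pool.Agent.Results.MP_cf17b5_gt.SplittingUndecidable
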